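import Pool.Agent.H643R2.QMain
import Pool.Agent.H643R2.QCF
import Pool.Agent.H643R2.QLin

set_option autoImplicit false

/-!
# A context-free non-generator whose cone contains all quasi-rational languages
-/

namespace Pool.Agent.Results.MP_2d18ab_lc.QrtNonGenerator

open Pool.Agent.Helper288.Cone
open Pool.Agent.H643R2.Q

/-- There is a context-free language `L` such that every quasi-rational language is the image of
`L` under a rational transduction, while some context-free language (the Dyck language over two
pairs of brackets) is not. -/
theorem result : ∃ (X : Type) (_ : Finite X) (L : Language X), L.IsContextFree ∧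
    (∀ (Y : Type) [Finite Y] (N : Language Y), IsQuasiRational N → InCone L N) ∧
    Dyck.IsContextFree ∧ ¬ InCone L Dyck :=
  ⟨Option Lam, inferInstance, L0, L0_cf, fun _ _ N h => quasiRational_inCone N h, dyck_cf,
    not_inCone_Dyck⟩

end Pool.Agent.Results.MP_2d18ab_lc.QrtNonGenerator
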